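import Pool.Agent.R59.DA.Stm

/-! DA-CAT: missing a large set with `q` samples. -/

namespace Pool.Agent.R569.DACAT

open Classical R59.DA

theorem cat : SCAT := by
  intro X _ Q q θ hQ
  have h1 : (Finset.univ.filter (fun w : Fin q → X => ∀ j, w j ∉ Q)) =
      Fintype.piFinset (fun _ : Fin q => Qᶜ) := by
    ext w
    simp
  rw [h1, Fintype.card_piFinset, Finset.prod_const, Finset.card_univ, Fintype.card_fin,
    Finset.card_compl, Nat.cast_pow]
  have h2 : Q.card ≤ Fintype.card X := Finset.card_le_univ Q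
  rw [Nat.cast_sub h2]
  have h3 : (Fintype.card X : ℝ) - Q.card ≤ Real.exp (-θ) * Fintype.card X := by
    have h4 : 1 - θ ≤ Real.exp (-θ) := by
      have := Real.add_one_le_exp (-θ)
      linarith
    have h5 : (0 : ℝ) ≤ Fintype.card X := by positivity
    nlinarith
  have h6 : (0 : ℝ) ≤ (Fintype.card X : ℝ) - Q.card := by
    have : (Q.card : ℝ) ≤ Fintype.card X := by exact_mod_cast h2
    linarith
  calc ((Fintype.card X : ℝ) - Q.card) ^ q ≤ (Real.exp (-θ) * Fintype.card X) ^ q :=
        pow_le_pow_left₀ h6 h3 q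
    _ = Real.exp (-(θ * q)) * (Fintype.card X : ℝ) ^ q := by
        rw [mul_pow, ← Real.exp_nat_mul]
        congr 2
        ring

end Pool.Agent.R569.DACAT
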