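import Mathlib

/-!
# A universal recursively enumerable set
-/

set_option autoImplicit false

namespace Pool.Agent.R569

open Nat.Partrec (Code)

/-- the halting set, as a set of natural numbers -/
def haltS (a : ℕ) : Prop := (Code.eval (Denumerable.ofNat Code a) 0).Dom

theorem haltS_re : REPred haltS := by
  have h : Partrec fun a : ℕ => Code.eval (Denumerable.ofNat Code a) 0 :=
    Code.eval_part.comp (Primrec.ofNat Code).to_comp (Computable.const 0)
  exact h.dom_re

theorem haltS_not_computable : ¬ ComputablePred haltS := by
  intro h
  apply ComputablePred.halting_problem 0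
  obtain ⟨inst, hc⟩ := h
  have h2 : Computable fun c : Code => decide (haltS (Encodable.encode c)) :=
    hc.comp Computable.encode
  refine ⟨fun c => Classical.dec _, h2.of_eq fun c => ?_⟩
  have h3 : haltS (Encodable.encode c) ↔ (Code.eval c 0).Dom := by
    unfold haltS
    rw [Denumerable.ofNat_encode]
  exact decide_eq_decide.2 h3

/-- Every recursively enumerable set is many-one reducible to the halting set. -/
theorem haltS_universal {W : ℕ → Prop} (hW : REPred W) : ∃ g : ℕ → ℕ, Computable g ∧
    ∀ n, W n ↔ haltS (g n) := by
  have hf : Partrec (fun m : ℕ => (Part.assert (W (Nat.unpair m).1) fun _ => Part.some ()).map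
      (fun _ => 0)) :=
    Partrec.map (Partrec.comp hW (Computable.fst.comp Computable.unpair)) (Computable.const 0).to₂
  obtain ⟨c, hc⟩ := Code.exists_code.1 (Partrec.nat_iff.1 hf)
  refine ⟨fun n => Encodable.encode (Code.curry c n),
    Computable.encode.comp (Code.primrec₂_curry.comp (Primrec.const c) Primrec.id).to_comp,
    fun n => ?_⟩
  unfold haltS
  rw [Denumerable.ofNat_encode, Code.eval_curry, hc]
  simp [Part.map, Part.assert]

/-- If the complement of the halting set is reducible to `P`, then `P` is not recursively
enumerable. -/
theorem not_re_of_reduction {α : Type} [Primcodable α] {P : α → Prop} (f : ℕ → α)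
    (hf : Computable f) (h : ∀ n, P (f n) ↔ ¬ haltS n) : ¬ REPred P := by
  intro hre
  apply haltS_not_computable
  refine ComputablePred.computable_iff_re_compl_re'.2 ⟨haltS_re, ?_⟩
  have h2 : REPred fun n => P (f n) := Partrec.comp hre hf
  exact h2.of_eq fun n => h n

end Pool.Agent.R569
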